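import Mathlib
import Pool.Agent.Helper38.SG.SmoB

/-! # Sobolev gap, piece NEAR: functions near the base point -/

open Filter Topology Set
open scoped RealInnerProductSpace ContDiff

universe u

namespace Pool.Agent.Helper57.SG

open Pool.Agent.Helper38.SG

variable {G 𝔤 : Type u} [Group G] [TopologicalSpace G] [IsTopologicalGroup G] [T2Space G]
  [NormedAddCommGroup 𝔤] [InnerProductSpace ℝ 𝔤] [FiniteDimensional ℝ 𝔤]

theorem sum_decomp (P : ParData G 𝔤) :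
    ([P.Enb, P.Em, P.Ea, P.En] : List (𝔤 →L[ℝ] 𝔤)).sum = ContinuousLinearMap.id ℝ 𝔤 := by
  ext X
  have h := P.decomp P.br_self P.jacobi X
  simp only [List.sum_cons, List.sum_nil, add_zero, _root_.add_apply,
    ContinuousLinearMap.coe_id', id_eq]
  conv_rhs => rw [h]
  abel

theorem sum_iwasawa (P : ParData G 𝔤) :
    ([P.pK, P.Ea, P.pN] : List (𝔤 →L[ℝ] 𝔤)).sum = ContinuousLinearMap.id ℝ 𝔤 := by
  ext X
  have h := P.iwasawa_decomp P.br_self P.jacobi X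
  simp only [List.sum_cons, List.sum_nil, add_zero, _root_.add_apply,
    ContinuousLinearMap.coe_id', id_eq]
  conv_rhs => rw [h]
  abel

theorem Em_mem (P : ParData G 𝔤) (X : 𝔤) : P.Em X ∈ P.𝔪 :=
  Submodule.starProjection_apply_mem _ _

theorem Ea_mem (P : ParData G 𝔤) (X : 𝔤) : P.Ea X ∈ P.𝔞 :=
  Submodule.starProjection_apply_mem _ _

theorem En_mem (P : ParData G 𝔤) (X : 𝔤) : P.En X ∈ P.𝔫 :=
  Submodule.starProjection_apply_mem _ _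

theorem θ_Enb_mem (P : ParData G 𝔤) (X : 𝔤) : P.θ (P.Enb X) ∈ P.𝔫 := by
  have : P.θ (P.Enb X) = P.En (P.θ X) := by
    show P.θ (P.θ (P.En (P.θ X))) = _
    rw [P.θ_θ]
  rw [this]
  exact En_mem P _

theorem exp_𝔪_mem (P : ParData G 𝔤) {X : 𝔤} (hX : X ∈ P.𝔪) : P.exp X ∈ P.M := by
  refine ⟨ParData.exp_mem ⟨X, hX.1⟩, fun H hH => ?_⟩
  apply P.Ad_exp_eq_self
  rw [P.br_skew P.br_self, P.H0_reg X hX.2 H hH, neg_zero]

/-- NEAR-A: coordinates `θ𝔫 × M × 𝔞 × 𝔫` near `M` in `K` -/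
theorem near_M (P : ParData G 𝔤) {W : Set G} (hW : W ∈ 𝓝 (1 : G)) {ε : ℝ} (hε : 0 < ε) :
    ∃ W' ∈ 𝓝 (1 : G), ∀ k ∈ P.K, ∀ m0 ∈ P.M, k * m0 ∈ W' →
      ∃ Z m H X, P.θ Z ∈ P.𝔫 ∧ m ∈ P.M ∧ H ∈ P.𝔞 ∧ X ∈ P.𝔫 ∧
        k = P.exp Z * m * P.exp H * P.exp X ∧ ‖Z‖ < ε ∧ ‖H‖ < ε ∧ k * m⁻¹ ∈ W := by
  obtain ⟨z, hz, hz0, -, hprod⟩ := P.exists_prod_coord _ (sum_decomp P)
  have hzc : ContinuousAt z 0 := hz.continuousAt
  have h1 : ∀ᶠ Y in 𝓝 (0 : 𝔤), ‖P.Enb (z Y)‖ < ε := by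
    have : ContinuousAt (fun Y => ‖P.Enb (z Y)‖) 0 := (P.Enb.continuous.continuousAt.comp hzc).norm
    have h0 : ‖P.Enb (z 0)‖ < ε := by simpa [hz0] using hε
    exact this.eventually (gt_mem_nhds h0)
  have h2 : ∀ᶠ Y in 𝓝 (0 : 𝔤), ‖P.Ea (z Y)‖ < ε := by
    have : ContinuousAt (fun Y => ‖P.Ea (z Y)‖) 0 := (P.Ea.continuous.continuousAt.comp hzc).norm
    have h0 : ‖P.Ea (z 0)‖ < ε := by simpa [hz0] using hε
    exact this.eventually (gt_mem_nhds h0)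
  have h3 : ∀ᶠ Y in 𝓝 (0 : 𝔤), P.exp Y * (P.exp (P.Em (z Y)))⁻¹ ∈ W := by
    have hc : ContinuousAt (fun Y => P.exp Y * (P.exp (P.Em (z Y)))⁻¹) 0 := by
      refine P.continuous_exp.continuousAt.mul ?_
      refine ContinuousAt.inv ?_
      exact P.continuous_exp.continuousAt.comp (P.Em.continuous.continuousAt.comp hzc)
    have h0 : P.exp (0 : 𝔤) * (P.exp (P.Em (z 0)))⁻¹ = 1 := by
      simp [hz0, P.exp_zero]
    have := hc.tendsto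
    simp only [h0] at this
    exact this hW
  refine ⟨P.exp '' {Y | (P.exp Y = (([P.Enb, P.Em, P.Ea, P.En] : List (𝔤 →L[ℝ] 𝔤)).map
      fun T => P.exp (T (z Y))).prod) ∧ ‖P.Enb (z Y)‖ < ε ∧ ‖P.Ea (z Y)‖ < ε ∧
      P.exp Y * (P.exp (P.Em (z Y)))⁻¹ ∈ W}, ?_, ?_⟩
  · rw [← P.map_exp_nhds_zero]
    exact image_mem_map (hprod.and (h1.and (h2.and h3)))
  · rintro k hk m0 hm0 ⟨Y, ⟨hY, hY1, hY2, hY3⟩, hYk⟩
    simp only [List.map_cons, List.map_nil, List.prod_cons, List.prod_nil, mul_one] at hY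
    refine ⟨P.Enb (z Y), P.exp (P.Em (z Y)) * m0⁻¹, P.Ea (z Y), P.Ad m0 (P.En (z Y)),
      θ_Enb_mem P _, mul_mem (exp_𝔪_mem P (Em_mem P _)) (inv_mem hm0), Ea_mem P _,
      P.Ad_M_𝔫 hm0 (En_mem P _), ?_, hY1, hY2, ?_⟩
    · have hk' : k = P.exp Y * m0⁻¹ := by rw [hYk]; group
      have hH : P.exp (P.Ea (z Y)) = m0 * P.exp (P.Ea (z Y)) * m0⁻¹ := by
        have := P.exp_Ad m0 (P.Ea (z Y))
        rwa [hm0.2 _ (Ea_mem P _)] at this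
      rw [hk', hY, P.exp_Ad]
      conv_rhs => rw [hH]
      group
    · have hk' : k = P.exp Y * m0⁻¹ := by rw [hYk]; group
      have : k * (P.exp (P.Em (z Y)) * m0⁻¹)⁻¹ = P.exp Y * (P.exp (P.Em (z Y)))⁻¹ := by
        rw [hk']; group
      rw [this]
      exact hY3

/-- mean value along a one-parameter subgroup of `K` -/
theorem norm_exp_𝔨_sub_le {P : ParData G 𝔤} {U : Type u} [NormedAddCommGroup U]
    [InnerProductSpace ℂ U] {f : G → U} (hs : P.Smooth f) {B : ℝ}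
    (hB : ∀ k ∈ P.K, ∀ i, ‖P.lD (stdOrthonormalBasis ℝ P.𝔨 i : 𝔤) f k‖ ≤ B) (Y : P.𝔨) :
    ‖f (P.exp (Y : 𝔤)) - f 1‖ ≤ (Module.finrank ℝ P.𝔨 : ℝ) * ‖(Y : 𝔤)‖ * B := by
  have hK : ∀ t : ℝ, P.exp (-(t • (-(Y : 𝔤)))) ∈ P.K := by
    intro t
    have := ParData.exp_mem (P := P) (t • Y)
    simpa using this
  have key : ∀ k ∈ P.K, ‖P.lD (-(Y : 𝔤)) f k‖ ≤
      (Module.finrank ℝ P.𝔨 : ℝ) * ‖(Y : 𝔤)‖ * B := by
    intro k hk
    let Λ : 𝔤 →ₗ[ℝ] U :=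
      { toFun := fun X => P.lD X f k
        map_add' := fun X X' => by rw [lD_add_left]; rfl
        map_smul' := fun a X => by rw [lD_smul_left]; rfl }
    have hsum : ((-Y : P.𝔨) : 𝔤) = ∑ i, ⟪stdOrthonormalBasis ℝ P.𝔨 i, -Y⟫ •
        (stdOrthonormalBasis ℝ P.𝔨 i : 𝔤) := by
      conv_lhs => rw [← (stdOrthonormalBasis ℝ P.𝔨).sum_repr' (-Y)]
      simp
    have h1 : P.lD (-(Y : 𝔤)) f k = ∑ i, ⟪stdOrthonormalBasis ℝ P.𝔨 i, -Y⟫ •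
        P.lD (stdOrthonormalBasis ℝ P.𝔨 i : 𝔤) f k := by
      have : P.lD (-(Y : 𝔤)) f k = Λ ((-Y : P.𝔨) : 𝔤) := rfl
      rw [this, hsum, map_sum]
      refine Finset.sum_congr rfl fun i _ => ?_
      rw [map_smul]
      rfl
    rw [h1]
    have hB0 : ∀ i, ‖⟪stdOrthonormalBasis ℝ P.𝔨 i, -Y⟫ •
        P.lD (stdOrthonormalBasis ℝ P.𝔨 i : 𝔤) f k‖ ≤ ‖(Y : 𝔤)‖ * B := by
      intro i
      rw [norm_smul]
      have h2 : ‖⟪stdOrthonormalBasis ℝ P.𝔨 i, -Y⟫‖ ≤ ‖(Y : 𝔤)‖ := by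
        have := norm_inner_le_norm (𝕜 := ℝ) (stdOrthonormalBasis ℝ P.𝔨 i) (-Y)
        simpa using this
      exact mul_le_mul h2 (hB k hk i) (norm_nonneg _) (norm_nonneg _)
    calc _ ≤ ∑ i, ‖⟪stdOrthonormalBasis ℝ P.𝔨 i, -Y⟫ •
        P.lD (stdOrthonormalBasis ℝ P.𝔨 i : 𝔤) f k‖ := norm_sum_le _ _
      _ ≤ ∑ _i : Fin (Module.finrank ℝ P.𝔨), ‖(Y : 𝔤)‖ * B := Finset.sum_le_sum fun i _ => hB0 i
      _ = _ := by
        rw [Finset.sum_const, Finset.card_univ, Fintype.card_fin, nsmul_eq_mul]; ring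
  have hd : ∀ t : ℝ, HasDerivAt (fun t : ℝ => f (P.exp (-(t • (-(Y : 𝔤)))) * 1))
      (P.lD (-(Y : 𝔤)) f (P.exp (-(t • (-(Y : 𝔤)))) * 1)) t := fun t =>
    P.hasDerivAt_lD hs (-(Y : 𝔤)) 1 t
  have hm := norm_image_sub_le_of_norm_deriv_le_segment_01'
    (f := fun t : ℝ => f (P.exp (-(t • (-(Y : 𝔤)))) * 1))
    (f' := fun t => P.lD (-(Y : 𝔤)) f (P.exp (-(t • (-(Y : 𝔤)))) * 1))
    (C := (Module.finrank ℝ P.𝔨 : ℝ) * ‖(Y : 𝔤)‖ * B)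
    (fun t _ => (hd t).hasDerivWithinAt)
    (fun t _ => by
      have := key _ (hK t)
      simpa only [mul_one] using this)
  simpa [P.exp_zero] using hm

/-- NEAR-B: Lipschitz bound for induced functions at the unit -/
theorem lipschitz_one {P : ParData G 𝔤} {U : Type u} [NormedAddCommGroup U]
    [InnerProductSpace ℂ U] (R : RepData P U) :
    ∃ (r : ℝ) (C : ℝ), 0 < r ∧ 0 ≤ C ∧ ∀ (f : G → U), IndFun R f → P.Smooth f → ∀ B : ℝ,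
      (∀ k ∈ P.K, ‖f k‖ ≤ B) →
      (∀ k ∈ P.K, ∀ i, ‖P.lD (stdOrthonormalBasis ℝ P.𝔨 i : 𝔤) f k‖ ≤ B) →
      ∀ Z : 𝔤, ‖Z‖ ≤ r → ‖f (P.exp Z) - f 1‖ ≤ C * ‖Z‖ * B := by
  obtain ⟨z, hz, hz0, hzd, hprod⟩ := P.exists_prod_coord _ (sum_iwasawa P)
  -- the growth of `z`
  have h1 : ∀ᶠ Z in 𝓝 (0 : 𝔤), ‖z Z‖ ≤ 2 * ‖Z‖ := by
    have := hzd.isLittleO.def (c := 1) one_pos
    filter_upwards [this] with Z hZ
    simp only [hz0, sub_zero, ContinuousLinearMap.coe_id', id_eq, one_mul] at hZ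
    calc ‖z Z‖ = ‖(z Z - Z) + Z‖ := by rw [sub_add_cancel]
      _ ≤ ‖z Z - Z‖ + ‖Z‖ := norm_add_le _ _
      _ ≤ 2 * ‖Z‖ := by linarith
  set A : ℝ := (‖LinearMap.toContinuousLinearMap R.ν‖ + ‖LinearMap.toContinuousLinearMap P.ρ‖) *
    (‖P.Ea‖ * 2) with hA
  have hA0 : 0 ≤ A := by positivity
  set A' : ℝ := ‖P.pK‖ * 2 with hA'
  have hA'0 : 0 ≤ A' := by positivity
  obtain ⟨δ, hδ, hball⟩ := Metric.eventually_nhds_iff_ball.1 (hprod.and h1)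
  refine ⟨min (δ / 2) (A + 1)⁻¹, 2 * A + (Module.finrank ℝ P.𝔨 : ℝ) * A', ?_, ?_, ?_⟩
  · exact lt_min (by linarith) (by positivity)
  · positivity
  intro f hf hs B hB hB' Z hZ
  have hZ1 : ‖Z‖ < δ := lt_of_le_of_lt (hZ.trans (min_le_left _ _)) (by linarith)
  have hZ2 : A * ‖Z‖ ≤ 1 := by
    have h := hZ.trans (min_le_right _ _)
    calc A * ‖Z‖ ≤ (A + 1) * (A + 1)⁻¹ :=
          mul_le_mul (by linarith) h (norm_nonneg _) (by linarith)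
      _ = 1 := mul_inv_cancel₀ (by linarith)
  obtain ⟨hpr, hzZ⟩ := hball Z (by simpa using hZ1)
  simp only [List.map_cons, List.map_nil, List.prod_cons, List.prod_nil, mul_one] at hpr
  set Y : P.𝔨 := ⟨P.pK (z Z), P.pK_mem P.br_self P.jacobi _⟩ with hY
  set H : 𝔤 := P.Ea (z Z) with hH
  set w : ℂ := Complex.I * (R.ν H : ℝ) + (P.ρ H : ℝ) with hw
  have hfZ : f (P.exp Z) = Complex.exp (-w) • f (P.exp (Y : 𝔤)) := by
    rw [hpr, ← mul_assoc, hf.map_N _ _ (P.pN_mem P.br_self P.jacobi _),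
      hf.map_A _ _ (Ea_mem P _)]
  have hHn : ‖H‖ ≤ ‖P.Ea‖ * 2 * ‖Z‖ := by
    calc ‖H‖ ≤ ‖P.Ea‖ * ‖z Z‖ := P.Ea.le_opNorm _
      _ ≤ ‖P.Ea‖ * (2 * ‖Z‖) := by gcongr
      _ = _ := by ring
  have hYn : ‖(Y : 𝔤)‖ ≤ A' * ‖Z‖ := by
    calc ‖(Y : 𝔤)‖ ≤ ‖P.pK‖ * ‖z Z‖ := P.pK.le_opNorm _
      _ ≤ ‖P.pK‖ * (2 * ‖Z‖) := by gcongr
      _ = _ := by rw [hA']; ring
  have hwn : ‖w‖ ≤ A * ‖Z‖ := by
    have h1 : ‖(R.ν H : ℝ)‖ ≤ ‖LinearMap.toContinuousLinearMap R.ν‖ * ‖H‖ :=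
      (LinearMap.toContinuousLinearMap R.ν).le_opNorm H
    have h2 : ‖(P.ρ H : ℝ)‖ ≤ ‖LinearMap.toContinuousLinearMap P.ρ‖ * ‖H‖ :=
      (LinearMap.toContinuousLinearMap P.ρ).le_opNorm H
    calc ‖w‖ ≤ ‖Complex.I * (R.ν H : ℝ)‖ + ‖((P.ρ H : ℝ) : ℂ)‖ := norm_add_le _ _
      _ = ‖(R.ν H : ℝ)‖ + ‖(P.ρ H : ℝ)‖ := by
        rw [norm_mul, Complex.norm_I, one_mul, Complex.norm_real, Complex.norm_real]
      _ ≤ (‖LinearMap.toContinuousLinearMap R.ν‖ + ‖LinearMap.toContinuousLinearMap P.ρ‖) *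
          ‖H‖ := by linarith
      _ ≤ (‖LinearMap.toContinuousLinearMap R.ν‖ + ‖LinearMap.toContinuousLinearMap P.ρ‖) *
          (‖P.Ea‖ * 2 * ‖Z‖) := by gcongr
      _ = _ := by rw [hA]; ring
  have hB0 : 0 ≤ B := (norm_nonneg _).trans (hB 1 P.K.one_mem)
  have hexp : ‖Complex.exp (-w) - 1‖ ≤ 2 * ‖w‖ := by
    have := Complex.norm_exp_sub_one_le (x := -w) (by rw [norm_neg]; exact hwn.trans hZ2)
    rwa [norm_neg] at this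
  have hmv := norm_exp_𝔨_sub_le hs hB' Y
  calc ‖f (P.exp Z) - f 1‖
      = ‖(Complex.exp (-w) - 1) • f (P.exp (Y : 𝔤)) + (f (P.exp (Y : 𝔤)) - f 1)‖ := by
        rw [hfZ, sub_smul, one_smul]; congr 1; abel
    _ ≤ ‖(Complex.exp (-w) - 1) • f (P.exp (Y : 𝔤))‖ + ‖f (P.exp (Y : 𝔤)) - f 1‖ :=
        norm_add_le _ _
    _ ≤ (2 * (A * ‖Z‖)) * B + (Module.finrank ℝ P.𝔨 : ℝ) * (A' * ‖Z‖) * B := by
        refine add_le_add ?_ ?_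
        · rw [norm_smul]
          refine mul_le_mul (hexp.trans (by linarith)) (hB _ (ParData.exp_mem Y))
            (norm_nonneg _) (by positivity)
        · refine hmv.trans ?_
          gcongr
    _ = _ := by ring

end Pool.Agent.Helper57.SG
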