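import Mathlib
import Pool.Agent.Helper38.SG.Mod
import Pool.Agent.Helper38.SG.InvB

/-! # Sobolev gap, piece COEF-2: the unitary `L²` realisation -/

open Filter Topology Set MeasureTheory
open scoped RealInnerProductSpace ContDiff

universe u

namespace Pool.Agent.Helper57.SG

open Pool.Agent.Helper38.SG

variable {G 𝔤 : Type u} [Group G] [TopologicalSpace G] [IsTopologicalGroup G] [T2Space G]
  [NormedAddCommGroup 𝔤] [InnerProductSpace ℝ 𝔤] [FiniteDimensional ℝ 𝔤] {P : ParData G 𝔤}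
  {U : Type u} [NormedAddCommGroup U] [InnerProductSpace ℂ U]

/-- smooth induced functions, as a submodule of all functions -/
def S2 (R : RepData P U) : Submodule ℂ (G → U) where
  carrier := {f | P.Smooth f ∧ IndFun R f}
  add_mem' hf hg := ⟨fun x => (hf.1 x).add (hg.1 x), hf.2.add hg.2⟩
  zero_mem' := ⟨fun _ => contDiffAt_const, IndFun.zero R⟩
  smul_mem' a _ hf := ⟨fun x => (hf.1 x).const_smul a, hf.2.smul a⟩

variable [MeasurableSpace P.K]

/-- the same as a type without topology, tagged by the measure -/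
def L2S (_μ : Measure P.K) (R : RepData P U) : Type u := S2 R

variable {μ : Measure P.K} {R : RepData P U}

instance : AddCommGroup (L2S μ R) := inferInstanceAs (AddCommGroup (S2 R))
instance : Module ℂ (L2S μ R) := inferInstanceAs (Module ℂ (S2 R))

/-- underlying function -/
def L2S.fn (f : L2S μ R) : G → U := Subtype.val (show S2 R from f)

theorem L2S.ext' {f g : L2S μ R} (h : f.fn = g.fn) : f = g := Subtype.ext h

theorem L2S.smooth (f : L2S μ R) : P.Smooth f.fn := (show S2 R from f).2.1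
theorem L2S.ind (f : L2S μ R) : IndFun R f.fn := (show S2 R from f).2.2

theorem L2S.fn_add (f g : L2S μ R) : (f + g).fn = f.fn + g.fn := rfl
theorem L2S.fn_smul (a : ℂ) (f : L2S μ R) : (a • f).fn = a • f.fn := rfl
theorem L2S.fn_sub (f g : L2S μ R) : (f - g).fn = f.fn - g.fn := rfl

/-- constructor -/
def L2S.mk (f : G → U) (h1 : P.Smooth f) (h2 : IndFun R f) : L2S μ R :=
  (show S2 R from ⟨f, h1, h2⟩)

theorem L2S.fn_mk (f : G → U) (h1 : P.Smooth f) (h2 : IndFun R f) :
    (L2S.mk (μ := μ) f h1 h2).fn = f := rfl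

variable [BorelSpace P.K] [IsProbabilityMeasure μ]

omit [T2Space G] [IsTopologicalGroup G] [FiniteDimensional ℝ 𝔤] in
theorem integrable_inner {h f : G → U} (hh : Continuous h) (hf : Continuous f) :
    Integrable (fun k : P.K => inner ℂ (h k) (f k)) μ := by
  have hc : Continuous (fun k : P.K => inner ℂ (h k) (f k)) :=
    (hh.comp continuous_subtype_val).inner (hf.comp continuous_subtype_val)
  exact hc.integrable_of_hasCompactSupport (HasCompactSupport.of_compactSpace _)

theorem L2S.cont (f : L2S μ R) : Continuous f.fn :=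
  LieData.Smooth.continuous P.toLieData f.smooth

omit [T2Space G] [IsTopologicalGroup G] [FiniteDimensional ℝ 𝔤] [BorelSpace P.K]
  [IsProbabilityMeasure μ] in
theorem re_pair_self {f : G → U} :
    pair μ f f = ((∫ k : P.K, ‖f k‖ ^ 2 ∂μ : ℝ) : ℂ) := by
  unfold pair
  rw [← integral_complex_ofReal]
  refine integral_congr_ae (Eventually.of_forall fun k => ?_)
  simp only [inner_self_eq_norm_sq_to_K]
  push_cast
  rfl

variable [μ.IsOpenPosMeasure]

/-- the inner product -/
@[reducible] noncomputable def core : InnerProductSpace.Core ℂ (L2S μ R) where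
  inner f g := pair μ f.fn g.fn
  conj_inner_symm f g := by
    show (starRingEnd ℂ) (pair μ g.fn f.fn) = pair μ f.fn g.fn
    unfold pair
    rw [← integral_conj]
    refine integral_congr_ae (Eventually.of_forall fun k => ?_)
    simp
  re_inner_nonneg f := by
    show 0 ≤ (pair μ f.fn f.fn).re
    rw [re_pair_self, Complex.ofReal_re]
    positivity
  add_left f g h := by
    show pair μ (f + g).fn h.fn = pair μ f.fn h.fn + pair μ g.fn h.fn
    rw [L2S.fn_add]
    unfold pair
    rw [← integral_add (integrable_inner f.cont h.cont) (integrable_inner g.cont h.cont)]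
    refine integral_congr_ae (Eventually.of_forall fun k => ?_)
    simp
  smul_left f g a := by
    show pair μ (a • f).fn g.fn = (starRingEnd ℂ) a * pair μ f.fn g.fn
    rw [L2S.fn_smul]
    unfold pair
    rw [← integral_const_mul]
    refine integral_congr_ae (Eventually.of_forall fun k => ?_)
    simp [mul_comm]
  definite f hf := by
    have h1 : pair μ f.fn f.fn = 0 := hf
    rw [re_pair_self, Complex.ofReal_eq_zero] at h1
    have hc : Continuous (fun k : P.K => ‖f.fn k‖ ^ 2) :=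
      ((f.cont.comp continuous_subtype_val).norm).pow 2
    have hi : Integrable (fun k : P.K => ‖f.fn k‖ ^ 2) μ :=
      hc.integrable_of_hasCompactSupport (HasCompactSupport.of_compactSpace _)
    rw [integral_eq_zero_iff_of_nonneg (fun k => by positivity) hi] at h1
    have h2 := (Continuous.ae_eq_iff_eq μ hc continuous_const).1 h1
    refine L2S.ext' ?_
    funext x
    rw [f.ind.apply_eq x]
    have h3 := congrFun h2 ⟨P.κ x, P.κ_mem x⟩
    have h4 : f.fn (P.κ x) = 0 := norm_eq_zero.1 (pow_eq_zero_iff two_ne_zero |>.1 h3)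
    rw [h4, smul_zero]
    rfl

noncomputable instance : NormedAddCommGroup (L2S μ R) :=
  @InnerProductSpace.Core.toNormedAddCommGroup ℂ _ _ _ _ core

noncomputable instance : InnerProductSpace ℂ (L2S μ R) :=
  InnerProductSpace.ofCore core.toCore

theorem inner_eq (f g : L2S μ R) : inner ℂ f g = pair μ f.fn g.fn := rfl

theorem norm_sq_eq (f : L2S μ R) : ‖f‖ ^ 2 = ∫ k : P.K, ‖f.fn k‖ ^ 2 ∂μ := by
  have h := @inner_self_eq_norm_sq_to_K ℂ (L2S μ R) _ _ _ f
  rw [inner_eq, re_pair_self] at h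
  have h2 : (((∫ k : P.K, ‖f.fn k‖ ^ 2 ∂μ : ℝ) : ℂ)) = ((‖f‖ ^ 2 : ℝ) : ℂ) := by
    rw [h]; push_cast; rfl
  exact (Complex.ofReal_injective h2).symm

theorem norm_le_of_sup (f : L2S μ R) {ε : ℝ} (hε : 0 ≤ ε) (h : ∀ k ∈ P.K, ‖f.fn k‖ ≤ ε) :
    ‖f‖ ≤ ε := by
  refine abs_le_of_sq_le_sq' ?_ hε |>.2
  rw [norm_sq_eq]
  have hc : Continuous (fun k : P.K => ‖f.fn k‖ ^ 2) :=
    ((f.cont.comp continuous_subtype_val).norm).pow 2
  have hi : Integrable (fun k : P.K => ‖f.fn k‖ ^ 2) μ :=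
    hc.integrable_of_hasCompactSupport (HasCompactSupport.of_compactSpace _)
  calc ∫ k : P.K, ‖f.fn k‖ ^ 2 ∂μ ≤ ∫ _k : P.K, ε ^ 2 ∂μ :=
        integral_mono hi (integrable_const _) fun k =>
          pow_le_pow_left₀ (norm_nonneg _) (h k k.2) 2
    _ = ε ^ 2 := by simp

variable [μ.IsMulLeftInvariant] [μ.IsMulRightInvariant]

/-- translation as a linear map -/
def ltL (g : G) : L2S μ R →ₗ[ℂ] L2S μ R where
  toFun f := L2S.mk (lt g f.fn) (LieData.Smooth.comp_mul_left P.toLieData f.smooth g⁻¹) (f.ind.lt g)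
  map_add' _ _ := rfl
  map_smul' _ _ := rfl

theorem ltL_fn (g : G) (f : L2S μ R) : (ltL g f).fn = lt g f.fn := rfl

theorem norm_ltL (g : G) (f : L2S μ R) : ‖ltL g f‖ = ‖f‖ := by
  have h : inner ℂ (ltL g f) (ltL g f) = inner ℂ f f := by
    rw [inner_eq, inner_eq, ltL_fn]
    exact pair_lt μ f.ind f.ind f.smooth f.smooth g
  rw [inner_self_eq_norm_sq_to_K, inner_self_eq_norm_sq_to_K] at h
  have h2 : ‖ltL g f‖ ^ 2 = ‖f‖ ^ 2 := by exact_mod_cast h
  exact (sq_eq_sq₀ (norm_nonneg _) (norm_nonneg _)).1 h2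

/-- the representation -/
noncomputable def piL : G →* (L2S μ R →L[ℂ] L2S μ R) where
  toFun g := (ltL g).mkContinuous 1 fun f => by rw [norm_ltL, one_mul]
  map_one' := by
    ext f
    refine L2S.ext' ?_
    exact lt_one f.fn
  map_mul' g g' := by
    ext f
    refine L2S.ext' ?_
    exact (lt_lt g g' f.fn).symm

theorem piL_apply (g : G) (f : L2S μ R) : piL g f = ltL g f := rfl

variable [FiniteDimensional ℂ U]

/-- inclusion of `V` -/
noncomputable def incl : V R →ₗ[ℂ] L2S μ R where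
  toFun f := L2S.mk (f : G → U) (smooth_of_mem_V f.2) f.2.2.1
  map_add' _ _ := rfl
  map_smul' _ _ := rfl

theorem incl_fn (f : V R) : (incl (μ := μ) f).fn = (f : G → U) := rfl

theorem hasDerivAt_piL (X : 𝔤) (f : V R) :
    HasDerivAt (fun t : ℝ => piL (P.exp (t • X)) (incl (μ := μ) f)) (incl (act R X f)) 0 := by
  rw [hasDerivAt_iff_tendsto_slope_zero]
  have hu := P.tendstoUniformlyOn_lD (smooth_of_mem_V f.2) X P.isCompact_K
  rw [Metric.tendstoUniformlyOn_iff] at hu
  rw [Metric.tendsto_nhds]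
  intro ε hε
  filter_upwards [hu (ε / 2) (by linarith)] with t ht
  refine lt_of_le_of_lt ?_ (half_lt_self hε)
  rw [dist_eq_norm]
  refine norm_le_of_sup _ (by linarith) fun k hk => ?_
  have h1 := ht k hk
  rw [dist_comm, dist_eq_norm] at h1
  refine le_of_eq_of_le ?_ h1.le
  congr 1
  simp only [zero_add, zero_smul, P.exp_zero, map_one]
  show ((t⁻¹ • (piL (P.exp (t • X)) (incl (μ := μ) f) - incl f) - incl (act R X f)).fn k : U) = _
  rw [L2S.fn_sub]
  show ((t⁻¹ : ℝ) • (piL (P.exp (t • X)) (incl (μ := μ) f) - incl f)).fn k - P.lD X f k = _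
  congr 1
  show (((t⁻¹ : ℝ) : ℂ) • (piL (P.exp (t • X)) (incl (μ := μ) f) - incl f)).fn k = _
  rw [L2S.fn_smul, Pi.smul_apply, L2S.fn_sub, Pi.sub_apply, piL_apply, ltL_fn, incl_fn]
  rw [P.exp_neg]
  rfl

/-- COEF-2: smooth induced functions with the `L²(K)`-norm. -/
theorem exists_L2 (μ : Measure P.K) [IsProbabilityMeasure μ]
    [μ.IsMulLeftInvariant] [μ.IsMulRightInvariant] [μ.IsOpenPosMeasure]
    (R : RepData P U) : ∃ (E₂ : Type u) (_ : NormedAddCommGroup E₂)
    (_ : NormedSpace ℂ E₂) (π₂ : G →* (E₂ →L[ℂ] E₂)) (j₂ : V R →ₗ[ℂ] E₂),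
    (∀ g v, ‖π₂ g v‖ ≤ ‖v‖) ∧
    (∀ (X : 𝔤) (f : V R),
      HasDerivAt (fun t : ℝ => π₂ (P.exp (t • X)) (j₂ f)) (j₂ (act R X f)) 0) ∧
    (∀ (k : P.K) (f : V R), π₂ k (j₂ f) = j₂ (kact R k f)) ∧
    ∀ h : V R, ∃ L : E₂ →L[ℂ] ℂ, ∀ (g : G) (f : V R),
      L (π₂ g (j₂ f)) = pair μ (h : G → U) (lt g (f : G → U)) := by
  refine ⟨L2S μ R, inferInstance, inferInstance, piL, incl, fun g v => ?_,
    fun X f => hasDerivAt_piL X f, fun k f => ?_, fun h => ⟨innerSL ℂ (incl h), fun g f => ?_⟩⟩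
  · rw [piL_apply, norm_ltL]
  · rfl
  · rw [innerSL_apply_apply, inner_eq]
    rfl

end Pool.Agent.Helper57.SG
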