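import Pool.Agent.Helper38.SG.HeatV
import Pool.Agent.Helper38.SG.Base2

/-! # Sobolev gap, piece ITER: `‖P_u f‖_∞ ≤ C u^{-c/2} p(f)` -/

open Filter Topology Set MeasureTheory
open scoped RealInnerProductSpace ContDiff

universe u

namespace Pool.Agent.Helper57.SG

open Pool.Agent.Helper38.SG

/-- the abstract iteration -/
theorem iter_abs {A : ℝ → ℝ} {c M δ C1 S : ℝ} (hc : 0 ≤ c) (_hS : 0 ≤ S) (hC1 : 0 ≤ C1)
    (hM : 0 ≤ M) (hδ : 0 < δ) (hδ1 : δ ≤ 1) (hδ2 : C1 * δ * 2 ^ (c / 2) ≤ 1 / 2)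
    (hA0 : ∀ u, 0 < u → 0 ≤ A u) (hAS : ∀ u, 0 < u → u ≤ 1 → A u ≤ S)
    (hA : ∀ u, 0 < u → u ≤ 1 → ∀ t : ℝ, 0 ≤ t →
      A u ≤ C1 * Real.exp (t * c) * M + C1 * Real.exp (-t) * u ^ (-(1 / 2 : ℝ)) * A (u / 2)) :
    ∀ u, 0 < u → u ≤ 1 → A u ≤ 2 * (C1 * δ ^ (-c)) * u ^ (-(c / 2)) * M := by
  have key : ∀ u, 0 < u → u ≤ 1 →
      u ^ (c / 2) * A u ≤ C1 * δ ^ (-c) * M + 1 / 2 * ((u / 2) ^ (c / 2) * A (u / 2)) := by
    intro u hu hu1
    have hsu : 0 < δ * u ^ (1 / 2 : ℝ) := mul_pos hδ (Real.rpow_pos_of_pos hu _)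
    have hsu1 : δ * u ^ (1 / 2 : ℝ) ≤ 1 :=
      mul_le_one₀ hδ1 (Real.rpow_nonneg hu.le _) (Real.rpow_le_one hu.le hu1 (by norm_num))
    have ht : 0 ≤ -Real.log (δ * u ^ (1 / 2 : ℝ)) :=
      neg_nonneg.2 (Real.log_nonpos hsu.le hsu1)
    have h := hA u hu hu1 _ ht
    have e1 : Real.exp (-(-Real.log (δ * u ^ (1 / 2 : ℝ)))) = δ * u ^ (1 / 2 : ℝ) := by
      rw [neg_neg, Real.exp_log hsu]
    have e2 : Real.exp (-Real.log (δ * u ^ (1 / 2 : ℝ)) * c) = δ ^ (-c) * u ^ (-(c / 2)) := by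
      rw [show -Real.log (δ * u ^ (1 / 2 : ℝ)) * c = Real.log (δ * u ^ (1 / 2 : ℝ)) * (-c) by ring,
        ← Real.rpow_def_of_pos hsu, Real.mul_rpow hδ.le (Real.rpow_nonneg hu.le _),
        ← Real.rpow_mul hu.le]
      ring_nf
    rw [e1, e2] at h
    have e3 : u ^ (1 / 2 : ℝ) * u ^ (-(1 / 2 : ℝ)) = 1 := by
      rw [← Real.rpow_add hu]; norm_num
    have e4 : u ^ (c / 2) * u ^ (-(c / 2)) = 1 := by
      rw [← Real.rpow_add hu]; norm_num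
    have e5 : u ^ (c / 2) = 2 ^ (c / 2) * (u / 2) ^ (c / 2) := by
      rw [← Real.mul_rpow (by norm_num) (by positivity)]
      congr 1; ring
    have hpos : 0 ≤ u ^ (c / 2) := Real.rpow_nonneg hu.le _
    calc u ^ (c / 2) * A u
        ≤ u ^ (c / 2) * (C1 * (δ ^ (-c) * u ^ (-(c / 2))) * M +
            C1 * (δ * u ^ (1 / 2 : ℝ)) * u ^ (-(1 / 2 : ℝ)) * A (u / 2)) :=
          mul_le_mul_of_nonneg_left h hpos
      _ = C1 * δ ^ (-c) * M * (u ^ (c / 2) * u ^ (-(c / 2))) +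
            C1 * δ * (u ^ (1 / 2 : ℝ) * u ^ (-(1 / 2 : ℝ))) * (u ^ (c / 2) * A (u / 2)) := by ring
      _ = C1 * δ ^ (-c) * M + C1 * δ * (u ^ (c / 2) * A (u / 2)) := by rw [e3, e4]; ring
      _ = C1 * δ ^ (-c) * M + C1 * δ * 2 ^ (c / 2) * ((u / 2) ^ (c / 2) * A (u / 2)) := by
          rw [e5]; ring
      _ ≤ _ := by
          have := mul_le_mul_of_nonneg_right hδ2
            (mul_nonneg (Real.rpow_nonneg (by positivity : (0:ℝ) ≤ u / 2) (c / 2))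
              (hA0 (u / 2) (by positivity)))
          linarith
  have hK : 0 ≤ C1 * δ ^ (-c) * M := mul_nonneg (mul_nonneg hC1 (Real.rpow_nonneg hδ.le _)) hM
  have iter : ∀ n : ℕ, ∀ u, 0 < u → u ≤ 1 →
      u ^ (c / 2) * A u ≤ 2 * (C1 * δ ^ (-c) * M) + (1 / 2) ^ n * S := by
    intro n
    induction n with
    | zero =>
      intro u hu hu1
      have h1 : u ^ (c / 2) * A u ≤ 1 * S :=
        mul_le_mul (Real.rpow_le_one hu.le hu1 (by linarith)) (hAS u hu hu1) (hA0 u hu) zero_le_one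
      simp only [pow_zero]
      linarith
    | succ n ih =>
      intro u hu hu1
      have h1 := key u hu hu1
      have h2 := ih (u / 2) (by positivity) (by linarith)
      rw [pow_succ]
      linarith
  intro u hu hu1
  have hlim : Tendsto (fun n : ℕ => 2 * (C1 * δ ^ (-c) * M) + (1 / 2 : ℝ) ^ n * S) atTop
      (𝓝 (2 * (C1 * δ ^ (-c) * M) + 0 * S)) :=
    tendsto_const_nhds.add
      ((tendsto_pow_atTop_nhds_zero_of_lt_one (by norm_num) (by norm_num)).mul_const S)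
  have h := ge_of_tendsto' hlim fun n => iter n u hu hu1
  have e4 : u ^ (-(c / 2)) * u ^ (c / 2) = 1 := by
    rw [← Real.rpow_add hu]; norm_num
  have h' := mul_le_mul_of_nonneg_left h (Real.rpow_nonneg hu.le (-(c / 2)))
  rw [← mul_assoc, e4, one_mul] at h'
  calc A u ≤ _ := h'
    _ = _ := by ring

variable {G 𝔤 : Type u} [Group G] [TopologicalSpace G] [IsTopologicalGroup G] [T2Space G]
  [NormedAddCommGroup 𝔤] [InnerProductSpace ℝ 𝔤] [FiniteDimensional ℝ 𝔤] {P : ParData G 𝔤}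
  {U : Type u} [NormedAddCommGroup U] [InnerProductSpace ℂ U] [FiniteDimensional ℂ U]
  [MeasurableSpace P.K] [BorelSpace P.K] (μ : Measure P.K) [IsProbabilityMeasure μ]
  [μ.IsMulLeftInvariant] [μ.IsMulRightInvariant] [μ.IsOpenPosMeasure]

/-- ITER -/
theorem iteration (R : RepData P U) (p : V R → ℝ) (hp0 : ∀ f, 0 ≤ p f)
    (hp : ∀ ξ : V R, ∃ C : ℝ, ∀ (f : V R) (g : G),
      ‖pair μ (ξ : G → U) (lt g (f : G → U))‖ ≤ C * p f)
    (hheat : ∃ C : ℝ, ∀ (u : ℝ), 0 < u → ∀ f, p (Pu R u f) ≤ C * p f) :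
    ∃ C : ℝ, 0 ≤ C ∧ ∀ (f : V R) (u : ℝ), 0 < u → u ≤ 1 →
      sn (Pu R u f) ≤ C * u ^ (-(P.c / 2)) * p f := by
  obtain ⟨C0, hC0, hbas⟩ := basic_inequality μ R p hp0 hp
  obtain ⟨Cp, hCp⟩ := hheat
  have hc : 0 ≤ P.c := P.c_nonneg P.br_self P.jacobi
  set n : ℝ := (Module.finrank ℝ P.𝔨 : ℝ) with hn
  have hn0 : 0 ≤ n := Nat.cast_nonneg _
  set Cq : ℝ := max Cp 0 with hCq
  have hCq0 : 0 ≤ Cq := le_max_right _ _
  have hCq' : ∀ u, 0 < u → ∀ f, p (Pu R u f) ≤ Cq * p f := fun u hu f =>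
    (hCp u hu f).trans (mul_le_mul_of_nonneg_right (le_max_left _ _) (hp0 f))
  set C1 : ℝ := C0 * Cq + C0 * (1 + n) with hC1
  have hC1' : 0 ≤ C1 := by positivity
  have h2c : (0 : ℝ) < 2 ^ (P.c / 2) := Real.rpow_pos_of_pos (by norm_num) _
  set δ : ℝ := min 1 (1 / (2 * (C1 + 1) * 2 ^ (P.c / 2))) with hδ
  have hδ0 : 0 < δ := lt_min one_pos (by positivity)
  have hδ1 : δ ≤ 1 := min_le_left _ _
  have hδ2 : C1 * δ * 2 ^ (P.c / 2) ≤ 1 / 2 := by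
    have h1 : δ ≤ 1 / (2 * (C1 + 1) * 2 ^ (P.c / 2)) := min_le_right _ _
    calc C1 * δ * 2 ^ (P.c / 2)
        ≤ (C1 + 1) * (1 / (2 * (C1 + 1) * 2 ^ (P.c / 2))) * 2 ^ (P.c / 2) := by
          gcongr
          linarith
      _ = 1 / 2 := by field_simp
  refine ⟨2 * (C1 * δ ^ (-P.c)), by positivity, fun f u hu hu1 => ?_⟩
  have hheatV : ∀ v, 0 < v → ∀ g : V R, sn (Pu R v g) ≤ sn g := fun v hv g =>
    (heat_V (snS R) (fun k f => sn_kact k f) hv g).1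
  refine iter_abs (A := fun v => sn (Pu R v f)) (M := p f) (S := sn f) hc (sn_nonneg f) hC1'
    (hp0 f) hδ0 hδ1 hδ2 (fun v _ => sn_nonneg _) (fun v hv _ => hheatV v hv f) ?_ u hu hu1
  intro v hv hv1 t ht
  have hsplit : Pu R v f = Pu R (v / 2) (Pu R (v / 2) f) := by
    rw [← Pu_add]; congr 2; ring
  have h1 : sn (Pu R v f) ≤ sn (Pu R (v / 2) f) := by
    rw [hsplit]; exact hheatV _ (by positivity) _
  have hsq : (√(2 * (v / 2)))⁻¹ = v ^ (-(1 / 2 : ℝ)) := by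
    rw [Real.sqrt_eq_rpow, ← Real.rpow_neg (by positivity)]
    congr 1; ring
  have h2 : ∀ i, sn (act R (stdOrthonormalBasis ℝ P.𝔨 i : 𝔤) (Pu R v f)) ≤
      v ^ (-(1 / 2 : ℝ)) * sn (Pu R (v / 2) f) := by
    intro i
    have := (heat_V (snS R) (fun k f => sn_kact k f) (show 0 < v / 2 by positivity)
      (Pu R (v / 2) f)).2 i
    rw [hsq, ← hsplit] at this
    exact this
  have hone : 1 ≤ v ^ (-(1 / 2 : ℝ)) := by
    rw [Real.rpow_neg hv.le]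
    exact one_le_inv_iff₀.2 ⟨Real.rpow_pos_of_pos hv _, Real.rpow_le_one hv.le hv1 (by norm_num)⟩
  have hA0 : 0 ≤ sn (Pu R (v / 2) f) := sn_nonneg _
  have hsum : ∑ i, sn (act R (stdOrthonormalBasis ℝ P.𝔨 i : 𝔤) (Pu R v f)) ≤
      n * (v ^ (-(1 / 2 : ℝ)) * sn (Pu R (v / 2) f)) := by
    refine (Finset.sum_le_sum fun i _ => h2 i).trans (le_of_eq ?_)
    rw [Finset.sum_const, Finset.card_univ, Fintype.card_fin, nsmul_eq_mul]
  have hb := hbas (Pu R v f) t ht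
  have hp1 := hCq' v hv f
  have he1 : 0 < Real.exp (t * P.c) := Real.exp_pos _
  have he2 : 0 < Real.exp (-t) := Real.exp_pos _
  have hpf := hp0 f
  calc sn (Pu R v f) ≤ _ := hb
    _ ≤ C0 * Real.exp (t * P.c) * (Cq * p f) + C0 * Real.exp (-t) *
        (v ^ (-(1 / 2 : ℝ)) * sn (Pu R (v / 2) f) +
          n * (v ^ (-(1 / 2 : ℝ)) * sn (Pu R (v / 2) f))) := by
        have h3 : sn (Pu R v f) ≤ v ^ (-(1 / 2 : ℝ)) * sn (Pu R (v / 2) f) :=
          h1.trans (le_mul_of_one_le_left hA0 hone)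
        gcongr
    _ = (C0 * Cq) * Real.exp (t * P.c) * p f + C0 * (1 + n) * Real.exp (-t) *
        v ^ (-(1 / 2 : ℝ)) * sn (Pu R (v / 2) f) := by ring
    _ ≤ C1 * Real.exp (t * P.c) * p f + C1 * Real.exp (-t) *
        v ^ (-(1 / 2 : ℝ)) * sn (Pu R (v / 2) f) := by
        have hv2 : 0 ≤ v ^ (-(1 / 2 : ℝ)) := Real.rpow_nonneg hv.le _
        have hle1 : C0 * Cq ≤ C1 := by
          rw [hC1]; have : 0 ≤ C0 * (1 + n) := by positivity
          linarith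
        have hle2 : C0 * (1 + n) ≤ C1 := by
          rw [hC1]; have : 0 ≤ C0 * Cq := by positivity
          linarith
        gcongr

end Pool.Agent.Helper57.SG
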