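import Pool.Agent.Helper38.SG.FCalc
import Pool.Agent.Helper59.SG.Heat

/-! # Sobolev gap, piece HEATV: heat bounds for `K`-invariant seminorms on `V` -/

open Filter Topology Set MeasureTheory
open scoped RealInnerProductSpace ContDiff

universe u

set_option linter.unusedSectionVars false

namespace Pool.Agent.Helper57.SG

open Pool.Agent.Helper38.SG

/-- seminorms on finite dimensional spaces are continuous at zero -/
theorem tendsto_seminorm {W : Type*} [AddCommGroup W] [Module ℝ W] [FiniteDimensional ℝ W]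
    [TopologicalSpace W] [IsTopologicalAddGroup W] [ContinuousSMul ℝ W] [T2Space W]
    (p : Seminorm ℝ W) {α : Type*} {l : Filter α} {x : α → W} (h : Tendsto x l (𝓝 0)) :
    Tendsto (fun a => p (x a)) l (𝓝 0) := by
  let b := Module.finBasis ℝ W
  have hb : ∀ y : W, p y ≤ ∑ i, ‖b.repr y i‖ * p (b i) := by
    intro y
    calc p y = p (∑ i, b.repr y i • b i) := by rw [b.sum_repr]
      _ ≤ ∑ i, p (b.repr y i • b i) :=
        Finset.le_sum_of_subadditive p (map_zero p).le (map_add_le_add p) _ _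
      _ = ∑ i, ‖b.repr y i‖ * p (b i) := by simp only [map_smul_eq_mul]
  refine squeeze_zero (fun _ => apply_nonneg _ _) (fun a => hb (x a)) ?_
  have h0 : (0 : ℝ) = ∑ i, ‖b.repr (0 : W) i‖ * p (b i) := by simp
  rw [h0]
  refine tendsto_finsetSum _ fun i _ => Tendsto.mul_const _ ?_
  have hc : Continuous (b.coord i) := LinearMap.continuous_of_finiteDimensional _
  exact ((hc.tendsto 0).comp h).norm

variable {G 𝔤 : Type u} [Group G] [TopologicalSpace G] [IsTopologicalGroup G] [T2Space G]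
  [NormedAddCommGroup 𝔤] [InnerProductSpace ℝ 𝔤] [FiniteDimensional ℝ 𝔤] {P : ParData G 𝔤}
  {U : Type u} [NormedAddCommGroup U] [InnerProductSpace ℂ U] [FiniteDimensional ℂ U]

theorem coe_smul_V {R : RepData P U} (a : ℝ) (f : V R) : (a : ℂ) • f = a • f :=
  Subtype.ext (Complex.coe_smul a (f : G → U))

/-- difference quotients converge for every seminorm on `V` -/
theorem tendsto_quot {R : RepData P U} (N : Seminorm ℝ (V R)) (Z : P.𝔨) (f : V R) :
    Tendsto (fun s : ℝ => N (s⁻¹ • (kact R ⟨P.exp (s • (Z : 𝔤)), ParData.exp_mem (s • Z)⟩ f - f) -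
      act R (Z : 𝔤) f)) (𝓝[≠] 0) (𝓝 0) := by
  obtain ⟨W₀, hW₀fin, hfW₀, hW₀K⟩ := f.2.2.2
  let S : Set (G → U) := {w | ∃ k ∈ P.K, w = lt k f}
  let W : Submodule ℂ (G → U) := Submodule.span ℂ S
  have hWW₀ : W ≤ W₀ := by
    refine Submodule.span_le.2 ?_
    rintro w ⟨k, hk, rfl⟩
    exact hW₀K k hk f hfW₀
  have hWfin : FiniteDimensional ℂ W := Submodule.finiteDimensional_of_le hWW₀
  have hfW : (f : G → U) ∈ W := Submodule.subset_span ⟨1, P.K.one_mem, (lt_one (f : G → U)).symm⟩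
  have hstab : ∀ k ∈ P.K, lt k (f : G → U) ∈ W := fun k hk => Submodule.subset_span ⟨k, hk, rfl⟩
  have hWV : W ≤ V R := by
    refine Submodule.span_le.2 ?_
    rintro w ⟨k, hk, rfl⟩
    exact lt_mem_V f.2 hk
  have hquot : Tendsto
      (fun t : ℝ => t⁻¹ • (lt (P.exp (t • (Z : 𝔤))) (f : G → U) - f)) (𝓝[≠] 0)
      (𝓝 (P.lD (Z : 𝔤) f)) := by
    rw [tendsto_pi_nhds]
    intro x
    have h1 := P.hasDerivAt_lD (smooth_of_mem_V f.2) (Z : 𝔤) x 0
    rw [hasDerivAt_iff_tendsto_slope] at h1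
    simp only [zero_smul, neg_zero, P.exp_zero, one_mul] at h1
    refine h1.congr fun t => ?_
    simp only [slope, sub_zero, vsub_eq_sub, zero_smul, neg_zero, P.exp_zero, one_mul,
      Pi.smul_apply, Pi.sub_apply, lt, P.exp_neg]
  have hclosed : IsClosed (W : Set (G → U)) := Submodule.closed_of_finiteDimensional W
  have hmem : ∀ t : ℝ, t⁻¹ • (lt (P.exp (t • (Z : 𝔤))) (f : G → U) - f) ∈ W := by
    intro t
    have h1 : lt (P.exp (t • (Z : 𝔤))) (f : G → U) - f ∈ W :=
      W.sub_mem (hstab _ (ParData.exp_mem (t • Z))) hfW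
    have h2 := W.smul_mem ((t⁻¹ : ℝ) : ℂ) h1
    rwa [Complex.coe_smul] at h2
  have hlDW : P.lD (Z : 𝔤) f ∈ W :=
    hclosed.mem_of_tendsto hquot (Eventually.of_forall fun t => hmem t)
  let q : ℝ → W := fun t => ⟨t⁻¹ • (lt (P.exp (t • (Z : 𝔤))) (f : G → U) - f), hmem t⟩ -
    ⟨P.lD (Z : 𝔤) f, hlDW⟩
  have hq : Tendsto q (𝓝[≠] 0) (𝓝 0) := by
    rw [tendsto_subtype_rng]
    have := hquot.sub_const (P.lD (Z : 𝔤) (f : G → U))
    rw [sub_self] at this
    exact this
  let ι : W →ₗ[ℝ] V R := (Submodule.inclusion hWV).restrictScalars ℝ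
  have : FiniteDimensional ℝ W := FiniteDimensional.complexToReal W
  have : ContinuousSMul ℝ W := ⟨continuous_induced_rng.2
    (continuous_fst.smul (continuous_subtype_val.comp continuous_snd))⟩
  exact tendsto_seminorm (N.comp ι) hq

/-- HEATV -/
theorem heat_V {R : RepData P U} (N : Seminorm ℝ (V R)) (hN : ∀ k f, N (kact R k f) ≤ N f)
    {u : ℝ} (hu : 0 < u) (f : V R) :
    N (Pu R u f) ≤ N f ∧
    ∀ i, N (act R (stdOrthonormalBasis ℝ P.𝔨 i : 𝔤) (Pu R u f)) ≤ (√(2 * u))⁻¹ * N f := by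
  obtain ⟨s, g, -, h1, rfl⟩ := casV_decomp f
  set z := stdOrthonormalBasis ℝ P.𝔨 with hz
  have hcas : ∀ v : V R, ∑ j, act R (z j : 𝔤) (act R (z j : 𝔤) v) = -casV R v := by
    intro v
    simp only [casV, LinearMap.neg_apply, neg_neg, LinearMap.sum_apply, LinearMap.comp_apply, hz]
  have hcomm : ∀ (X : P.𝔨) (v : V R), casV R (act R (X : 𝔤) v) = act R (X : 𝔤) (casV R v) := by
    intro X v
    apply Subtype.ext
    rw [casV_coe, act_coe, act_coe, casV_coe]
    exact cas_lD v.2 X.2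
  have key := Pool.Agent.Helper59.SG.heat N
    (fun i s => (kact R ⟨P.exp (s • (z i : 𝔤)), ParData.exp_mem (s • z i)⟩).restrictScalars ℝ)
    (fun i => (act R (z i : 𝔤)).restrictScalars ℝ)
    (fun i s v => hN _ _)
    (fun i v => tendsto_quot N (z i) v)
    (fun i s t v => by
      simp only [LinearMap.coe_restrictScalars]
      rw [← Module.End.mul_apply, ← map_mul]
      congr 2
      exact Subtype.ext (P.exp_add_smul _ _ _))
    (fun i v => by
      simp only [LinearMap.coe_restrictScalars]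
      have : (⟨P.exp ((0 : ℝ) • (z i : 𝔤)), ParData.exp_mem ((0 : ℝ) • z i)⟩ : P.K) = 1 :=
        Subtype.ext (by simp [P.exp_zero])
      rw [this, map_one, Module.End.one_apply])
    (fun i v => by
      simp only [LinearMap.coe_restrictScalars]
      rw [hcas, hcas, hcomm, map_neg])
    s g id (fun a ha => by
      simp only [LinearMap.coe_restrictScalars, id]
      rw [hcas, h1 a ha, neg_smul, coe_smul_V]) hu
  have hPu : Pu R u (∑ μ ∈ s, g μ) = ∑ a ∈ s, Real.exp (-u * id a) • g a := by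
    rw [map_sum]
    refine Finset.sum_congr rfl fun μ hμ => ?_
    rw [Pu_apply R u (h1 μ hμ), coe_smul_V, id, neg_mul]
  rw [hPu]
  exact key

end Pool.Agent.Helper57.SG
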